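import Pool.Agent.Helper10.Lor.Lib

set_option autoImplicit false

/-! Torus averages on `ℝⁿ / ℤb₁ + ... + ℤbₙ`. -/

namespace Pool.Agent.Helper79.Lor

open Pool.Agent.Helper10.Lor
open MeasureTheory Set
open scoped Pointwise

variable {n : ℕ}

/-- Lebesgue measure on the unit cube -/
noncomputable abbrev mu (n : ℕ) : Measure (Fin n → ℝ) :=
  volume.restrict (Icc (0 : Fin n → ℝ) 1)

instance : IsProbabilityMeasure (mu n) := ⟨by
  rw [Measure.restrict_apply_univ, Real.volume_Icc_pi]; simp⟩

theorem shift (H : (Fin n → ℝ) → ENNReal)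
    (hp : ∀ (k : Fin n → ℤ) x, H (x + fun i => (k i : ℝ)) = H x) (c : Fin n → ℝ) :
    ∫⁻ p, H (p + c) ∂(mu n) = ∫⁻ p, H p ∂(mu n) := by
  set b := Pi.basisFun ℝ (Fin n) with hb
  set D : Set (Fin n → ℝ) := ZSpan.fundamentalDomain b with hD
  have hcount : Countable (Submodule.span ℤ (Set.range b)).toAddSubgroup :=
    inferInstanceAs (Countable (Submodule.span ℤ (Set.range b)))
  have hfd : IsAddFundamentalDomain (Submodule.span ℤ (Set.range b)).toAddSubgroup D volume :=
    ZSpan.isAddFundamentalDomain' b volume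
  have hDI : D =ᵐ[volume] Icc (0 : Fin n → ℝ) 1 := by
    rw [hD, hb, ZSpan.fundamentalDomain_pi_basisFun]
    exact Measure.univ_pi_Ico_ae_eq_Icc
  have hinv : ∀ (g : (Submodule.span ℤ (Set.range b)).toAddSubgroup) (x : Fin n → ℝ),
      H (g +ᵥ x) = H x := by
    intro g x
    have hg : ∃ k : Fin n → ℤ, (g : Fin n → ℝ) = fun i => (k i : ℝ) := by
      have h1 : ∀ i, ∃ m : ℤ, (m : ℝ) = b.repr (g : Fin n → ℝ) i :=
        (b.mem_span_iff_repr_mem ℤ _).1 g.2
      choose k hk using h1
      exact ⟨k, funext fun i => by rw [hk i]; simp [hb]⟩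
    obtain ⟨k, hk⟩ := hg
    have : g +ᵥ x = x + fun i => (k i : ℝ) := by
      rw [← hk, add_comm]; rfl
    rw [this, hp]
  have h2 : ∫⁻ p, H (p + c) ∂(mu n) = ∫⁻ p in D, H (p + c) := (setLIntegral_congr hDI).symm
  have h3 : ∫⁻ p, H p ∂(mu n) = ∫⁻ p in D, H p := (setLIntegral_congr hDI).symm
  rw [h2, h3]
  have hmp : MeasurePreserving (fun x : Fin n → ℝ => x + c) volume volume :=
    measurePreserving_add_right volume c
  have he : MeasurableEmbedding (fun x : Fin n → ℝ => x + c) :=
    (MeasurableEquiv.addRight c).measurableEmbedding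
  have h5 := hmp.setLIntegral_comp_preimage_emb he H ((fun x : Fin n → ℝ => x + (-c)) ⁻¹' D)
  have h6 : (fun x : Fin n → ℝ => x + c) ⁻¹' ((fun x : Fin n → ℝ => x + (-c)) ⁻¹' D) = D := by
    ext x; simp
  rw [h6] at h5
  rw [h5]
  have h7 : IsAddFundamentalDomain (Submodule.span ℤ (Set.range b)).toAddSubgroup
      ((fun x : Fin n → ℝ => x + (-c)) ⁻¹' D) volume := by
    have h8 := hfd.vadd_of_comm c
    have h9 : (fun x : Fin n → ℝ => x + (-c)) ⁻¹' D = c +ᵥ D := by
      ext x
      rw [Set.mem_vadd_set_iff_neg_vadd_mem]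
      simp [add_comm]
    rw [h9]; exact h8
  exact h7.setLIntegral_eq hfd H hinv

theorem linear_inv (G : (Fin n → ℝ) → ENNReal) (hm : Measurable G)
    (hp : ∀ (k : Fin n → ℤ) x, G (x + fun i => (k i : ℝ)) = G x)
    (L : (Fin n → ℝ) → (Fin n → ℝ)) (hLm : Measurable L) (hLadd : ∀ p q, L (p + q) = L p + L q)
    (hLs : Function.Surjective L)
    (hLZ : ∀ k : Fin n → ℤ, ∃ m : Fin n → ℤ, L (fun i => (k i : ℝ)) = fun i => (m i : ℝ)) :
    ∫⁻ q, G (L q) ∂(mu n) = ∫⁻ p, G p ∂(mu n) := by
  have claim2 : ∀ p, ∫⁻ q, G (L q + p) ∂(mu n) = ∫⁻ q, G (L q) ∂(mu n) := by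
    intro p
    obtain ⟨q0, rfl⟩ := hLs p
    simp only [← hLadd]
    apply shift (fun q => G (L q))
    intro k x
    obtain ⟨m, hm'⟩ := hLZ k
    simp only [hLadd, hm', hp]
  have claim1 : ∀ q, ∫⁻ p, G (L q + p) ∂(mu n) = ∫⁻ p, G p ∂(mu n) := by
    intro q
    simp only [add_comm (L q)]
    exact shift G hp (L q)
  calc ∫⁻ q, G (L q) ∂(mu n)
      = ∫⁻ _p : Fin n → ℝ, (∫⁻ q, G (L q) ∂(mu n)) ∂(mu n) := by
        rw [lintegral_const, measure_univ, mul_one]
    _ = ∫⁻ p, ∫⁻ q, G (L q + p) ∂(mu n) ∂(mu n) := by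
        simp only [claim2]
    _ = ∫⁻ q, ∫⁻ p, G (L q + p) ∂(mu n) ∂(mu n) := by
        apply lintegral_lintegral_swap
        apply Measurable.aemeasurable
        exact hm.comp ((hLm.comp measurable_snd).add measurable_fst)
    _ = ∫⁻ _q : Fin n → ℝ, (∫⁻ p, G p ∂(mu n)) ∂(mu n) := by
        simp only [claim1]
    _ = ∫⁻ p, G p ∂(mu n) := by
        rw [lintegral_const, measure_univ, mul_one]

theorem per_int {b : Fin n → E n} {F : Pt n → ENNReal} {r : ℝ}
    (hper : ∀ i, ∀ z : E n, F (z + b i, r) = F (z, r)) (k : Fin n → ℤ) (z : E n) :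
    F (z + ∑ i, (k i : ℝ) • b i, r) = F (z, r) := by
  classical
  have h1 : ∀ (i : Fin n) (m : ℕ) (z : E n), F (z + (m : ℝ) • b i, r) = F (z, r) := by
    intro i m
    induction m with
    | zero => intro z; simp
    | succ m ih =>
      intro z
      have : z + ((m + 1 : ℕ) : ℝ) • b i = (z + (m : ℝ) • b i) + b i := by
        push_cast
        rw [add_smul, one_smul, add_assoc]
      rw [this, hper, ih]
  have h2 : ∀ (i : Fin n) (m : ℤ) (z : E n), F (z + (m : ℝ) • b i, r) = F (z, r) := by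
    intro i m z
    rcases Int.eq_nat_or_neg m with ⟨a, rfl | rfl⟩
    · have := h1 i a z
      simpa using this
    · have := h1 i a (z + (((-(a : ℤ) : ℤ)) : ℝ) • b i)
      rw [← this]
      congr 2
      push_cast
      rw [add_assoc, ← add_smul]
      simp
  have h3 : ∀ s : Finset (Fin n), ∀ z : E n,
      F (z + ∑ i ∈ s, (k i : ℝ) • b i, r) = F (z, r) := by
    intro s
    induction s using Finset.induction_on with
    | empty => intro z; simp
    | insert a s ha ih =>
      intro z
      rw [Finset.sum_insert ha, ← add_assoc, ih, h2]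
  exact h3 Finset.univ z

/-- averages over the cell of a lattice and over the cell of a sublattice agree -/
theorem cellInt_sub {b b' : Fin n → E n} (hb' : LinearIndependent ℝ b')
    (hsub : ∀ i, ∃ m : Fin n → ℤ, b' i = ∑ j, (m j : ℝ) • b j)
    (F : Pt n → ENNReal) (hF : Measurable F)
    (hper : ∀ i, ∀ z : E n, ∀ r : ℝ, 0 < r → F (z + b i, r) = F (z, r)) {r : ℝ}
    (hr : 0 < r) : cellInt b' F r = cellInt b F r := by
  choose M hM using hsub
  set G : (Fin n → ℝ) → ENNReal := fun y => F (∑ i, y i • b i, r) with hG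
  have hGm : Measurable G := by
    apply hF.comp
    refine Measurable.prodMk ?_ measurable_const
    apply Continuous.measurable
    fun_prop
  have hGp : ∀ (k : Fin n → ℤ) x, G (x + fun i => (k i : ℝ)) = G x := by
    intro k x
    simp only [hG, Pi.add_apply, add_smul, Finset.sum_add_distrib]
    exact per_int (fun i z => hper i z r hr) k _
  set L : (Fin n → ℝ) → (Fin n → ℝ) := fun x j => ∑ i, x i * (M i j : ℝ) with hL
  have hLm : Measurable L := by
    apply Continuous.measurable
    fun_prop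
  have hLadd : ∀ p q, L (p + q) = L p + L q := by
    intro p q
    funext j
    simp only [hL, Pi.add_apply, add_mul, Finset.sum_add_distrib]
  have hLsmul : ∀ (c : ℝ) p, L (c • p) = c • L p := by
    intro c p
    funext j
    simp only [hL, Pi.smul_apply, smul_eq_mul, Finset.mul_sum, mul_assoc]
  have hsum : ∀ x : Fin n → ℝ, ∑ i, x i • b' i = ∑ j, (L x) j • b j := by
    intro x
    simp only [hM, hL, Finset.smul_sum, Finset.sum_smul, smul_smul]
    rw [Finset.sum_comm]
  let L' : (Fin n → ℝ) →ₗ[ℝ] (Fin n → ℝ) :=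
    { toFun := L, map_add' := hLadd, map_smul' := hLsmul }
  have hLinj : Function.Injective L' := by
    rw [injective_iff_map_eq_zero]
    intro x hx
    have hx' : L x = 0 := hx
    have h1 : ∑ i, x i • b' i = 0 := by
      rw [hsum, hx']
      simp
    funext i
    exact Fintype.linearIndependent_iff.mp hb' x h1 i
  have hLs : Function.Surjective L := (LinearMap.injective_iff_surjective.mp hLinj)
  have hLZ : ∀ k : Fin n → ℤ, ∃ m : Fin n → ℤ, L (fun i => (k i : ℝ)) = fun i => (m i : ℝ) := by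
    intro k
    refine ⟨fun j => ∑ i, k i * M i j, ?_⟩
    funext j
    simp only [hL]
    push_cast
    rfl
  have key := linear_inv G hGm hGp L hLm hLadd hLs hLZ
  simp only [hG, ← hsum] at key
  exact key

end Pool.Agent.Helper79.Lor
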